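import Pool.Agent.Run7.h58.AR.Final3
import Pool.Agent.Run7.h114.AR.LIM
import Pool.Agent.Run7.h114.AR.MAP
import Pool.Agent.Run7.h213.AR.LOG
import Pool.Agent.Run7.h221.AR.HUN
import Pool.Agent.Run7.h222.AR.BDRY
import Pool.Agent.Run7.h351.AR.ELEM
import Pool.Agent.Run7.h595.AR.BA
import Pool.Agent.Run7.h771.AR.HEX
import Pool.Agent.Run7.h888.AR.CAU
import Pool.Agent.Run7.h888.AR.GROW
import Pool.Agent.Run7.h888.AR.RAY
import Pool.Agent.Run7.h986.AR.SCHW

/-!
# A scalar function of class `B_a` that does not satisfy the Hankel resolvent limit condition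

Already for `N = M = ℂ` the class `B_a` and the Szego condition do not imply condition (4).

The example is `χ(z) = z φ(v) / A(v)`, where `v = v(z)` is the holomorphic branch of
`(i (1 + z)/(1 - z))^{1/2}` with values in the first quadrant,
`φ(v) = (1 - v²) sin v / (2 v)` and `A(v) = cos v - (i/2)(1 + v²) sin v / v`.

* In the closed first quadrant `|A|² ≥ 1 + |φ|²`, with equality on the two axes, where `φ` is real.
  So `|χ| < 1` in the closed disc without the point `1`, and `1 - |χ|² = 1/|A|²` on the circle.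
* `(1 - r)/(1 - |χ(r)|) → 0` as `r → 1`. Hence for every Schur function `E` the measure `σ_E` has
  no atom at `1`, and off the point `1` it has a locally bounded density: `χ` is in `B_a`.
* `1/A(v(z))` is an outer function, so `P_+^{-1} = c / A(v(z))` with `|c| = 1`, and on the circle
  `f_0 = conj χ · a / conj a = c² φ(v) / (z A(v))`: the function `z f_0` is holomorphic and bounded
  in the disc, and the Hankel operator `Γ` has rank one.
* For `Γ = γ e_0 ⊗ e_0` with `|γ| < 1` one computes `P_+^{-1}(z, ρ) q_+(z, ρ) = ρ z conj γ`, which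
  tends to the linear function `z conj γ`, but `χ` is not linear.
-/

set_option autoImplicit false

open MeasureTheory Filter Topology Set Complex

namespace Pool.Agent.Results.MP_0d9f0f_an.ScalarCounterexample

/-- the open unit disc -/
def D : Set ℂ := Metric.ball 0 1

/-- the class of holomorphic functions on the disc bounded by one -/
def Schur (f : ℂ → ℂ) : Prop := DifferentiableOn ℂ f D ∧ ∀ z ∈ D, ‖f z‖ ≤ 1

/-- the Schwarz-Herglotz kernel `(t + z)/(t - z)` at `t = exp(i theta)` -/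
noncomputable def ker (z : ℂ) (θ : ℝ) : ℂ := (exp (θ * I) + z) / (exp (θ * I) - z)

/-- the integral over the circle with respect to normalised Lebesgue measure -/
noncomputable def mean (g : ℝ → ℂ) : ℂ := (2 * Real.pi : ℂ)⁻¹ * ∫ θ in (-Real.pi)..Real.pi, g θ

/-- `σ` (a finite Borel measure on the circle, written as a measure on the interval `(-π, π]` of
angles) is the measure in the Riesz-Herglotz representation of `F` (for `F 0 = 1`) -/
def HerglotzMeasure (F : ℂ → ℂ) (σ : Measure ℝ) : Prop :=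
  IsFiniteMeasure σ ∧ σ (Ioc (-Real.pi) Real.pi)ᶜ = 0 ∧ ∀ z ∈ D, F z = ∫ θ, ker z θ ∂σ

/-- the function `(1 + χ E)/(1 - χ E)` -/
noncomputable def cay (χ E : ℂ → ℂ) : ℂ → ℂ := fun z => (1 + χ z * E z) / (1 - χ z * E z)

/-- the class `B_a`: `χ` is in the Schur class, `χ 0 = 0`, and for every Schur function `E` the
Herglotz measure of `(1 + χ E)/(1 - χ E)` exists and is absolutely continuous -/
def ClassBa (χ : ℂ → ℂ) : Prop :=
  Schur χ ∧ χ 0 = 0 ∧ ∀ E, Schur E → (∃ σ, HerglotzMeasure (cay χ E) σ) ∧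
    ∀ σ, HerglotzMeasure (cay χ E) σ → σ ≪ (volume : Measure ℝ)

/-- `b θ` is the radial limit of `f` at `exp(i θ)` for almost every `θ` in `(-π, π]` -/
def IsBoundary (f : ℂ → ℂ) (b : ℝ → ℂ) : Prop :=
  ∀ᵐ θ : ℝ ∂(volume.restrict (Ioc (-Real.pi) Real.pi)),
    Tendsto (fun r : ℝ => f (r * exp (θ * I))) (𝓝[<] 1) (𝓝 (b θ))

/-- the Szego condition `log (1 - |χ|^2)` integrable on the circle (in particular `|χ| < 1`
almost everywhere) -/
def ClassSz (χ : ℂ → ℂ) : Prop :=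
  ∃ χ' : ℝ → ℂ, IsBoundary χ χ' ∧
    (∀ᵐ θ : ℝ ∂(volume.restrict (Ioc (-Real.pi) Real.pi)), ‖χ' θ‖ < 1) ∧
    IntervalIntegrable (fun θ => Real.log (1 - ‖χ' θ‖ ^ 2)) volume (-Real.pi) Real.pi

/-- `a` is the outer function, positive at the origin, with boundary values `a'` -/
def IsOuter (a : ℂ → ℂ) (a' : ℝ → ℂ) : Prop :=
  IsBoundary a a' ∧ (∀ᵐ θ : ℝ ∂(volume.restrict (Ioc (-Real.pi) Real.pi)), a' θ ≠ 0) ∧
    IntervalIntegrable (fun θ => Real.log ‖a' θ‖) volume (-Real.pi) Real.pi ∧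
    ∀ z ∈ D, a z = exp (mean (fun θ => ker z θ * (Real.log ‖a' θ‖ : ℂ)))

/-- `f_0 = q_- P_+^{-1}`, `q_- = P_- χ^*`, where `P_+^{-1} = a`, `P_-^{-1} = conj a` on the circle -/
noncomputable def f0 (χ' a' : ℝ → ℂ) : ℝ → ℂ :=
  fun θ => (starRingEnd ℂ) (χ' θ) * a' θ / (starRingEnd ℂ) (a' θ)

/-- Fourier coefficients on the circle -/
noncomputable def fc (g : ℝ → ℂ) (n : ℤ) : ℂ := mean (fun θ => g θ * exp (-(n * θ * I)))

section Hilbert

variable {H : Type} [NormedAddCommGroup H] [InnerProductSpace ℂ H] [CompleteSpace H]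

/-- the adjoint of a bounded operator of a Hilbert space -/
noncomputable def adj (A : H →L[ℂ] H) : H →L[ℂ] H := star A

/-- the operator `I - c T` -/
noncomputable def pencil (c : ℂ) (T : H →L[ℂ] H) : H →L[ℂ] H := 1 - c • T

/-- the resolvent `(I - ρ^2 T)^{-1}` -/
noncomputable def res (T : H →L[ℂ] H) (ρ : ℝ) : H →L[ℂ] H :=
  Ring.inverse (pencil ((ρ : ℂ) ^ 2) T)

/-- the product of two operators -/
noncomputable def prod (A B : H →L[ℂ] H) : H →L[ℂ] H := A * B

/-- the value of the operator `A` at the vector `c h` -/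
noncomputable def app (A : H →L[ℂ] H) (c : ℂ) (h : H) : H := A (c • h)

end Hilbert

/-- the space of square summable sequences (indexed by `0, 1, 2, ...`) -/
abbrev L2 : Type := lp (fun _ : ℕ => ℂ) 2

/-- the bounded operators on the sequence space -/
abbrev Op : Type := L2 →L[ℂ] L2

/-- the `j`-th unit vector -/
noncomputable def unit (j : ℕ) : L2 := lp.single 2 j (1 : ℂ)

/-- the `j`-th coordinate of a sequence -/
noncomputable def coord (h : L2) (j : ℕ) : ℂ := (h : ℕ → ℂ) j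

/-- `Γ` has the Hankel matrix `(g^(-j-k+1))`, `j, k ≥ 1` (here `j, k ≥ 0`) -/
def IsHankel (Γ : Op) (g : ℝ → ℂ) : Prop :=
  ∀ j k : ℕ, coord (Γ (unit k)) j = fc g (-((j : ℤ) + k + 1))

/-- the positive square root of `[P_0 (I - ρ^2 T)^{-1} | P_0]^{-1}`, `P_0` the projection on the
first coordinate -/
noncomputable def root (T : Op) (ρ : ℝ) : ℝ := (Real.sqrt (coord (res T ρ (unit 0)) 0).re)⁻¹

/-- the vector `(I - ρ^2 T)^{-1} N^{1/2}(ρ) e_1` -/
noncomputable def vec (T : Op) (ρ : ℝ) : L2 := app (res T ρ) (root T ρ : ℂ) (unit 0)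

/-- the power series with coefficients `h` -/
noncomputable def gen (h : L2) (z : ℂ) : ℂ := ∑' j : ℕ, coord h j * z ^ j

/-- `P_+(z, ρ)` -/
noncomputable def Pp (Γ : Op) (z : ℂ) (ρ : ℝ) : ℂ := gen (vec (prod (adj Γ) Γ) ρ) z

/-- `q_+(z, ρ)` -/
noncomputable def qp (Γ : Op) (z : ℂ) (ρ : ℝ) : ℂ :=
  ρ * z * gen (adj Γ (vec (prod Γ (adj Γ)) ρ)) z

/-- `Γ` is the Hankel operator attached to `χ` -/
def Data (χ : ℂ → ℂ) (Γ : Op) : Prop :=
  ∃ (χ' : ℝ → ℂ) (a : ℂ → ℂ) (a' : ℝ → ℂ), IsBoundary χ χ' ∧ IsOuter a a' ∧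
    (∀ᵐ θ : ℝ ∂(volume.restrict (Ioc (-Real.pi) Real.pi)), ‖a' θ‖ ^ 2 = 1 - ‖χ' θ‖ ^ 2) ∧
    IsHankel Γ (f0 χ' a')

/-- condition (4) for `χ` with Hankel operator `Γ` -/
def Cond4 (χ : ℂ → ℂ) (Γ : Op) : Prop :=
  ∀ z ∈ D, Tendsto (fun ρ : ℝ => (Pp Γ z ρ)⁻¹ * qp Γ z ρ) (𝓝[<] 1) (𝓝 (χ z))

/-- There is a scalar function `χ` in the class `B_a` that satisfies the Szego condition and does
not satisfy condition (4). -/
theorem result : ∃ χ : ℂ → ℂ, ClassBa χ ∧ ClassSz χ ∧ (∃ Γ, Data χ Γ) ∧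
    ∀ Γ, Data χ Γ → ¬ Cond4 χ Γ :=
  Pool.Agent.Run7.h58.AR.main Pool.Agent.Run7.h351.AR.t_ELEM Run7.h222.AR.t_BDRY
    Pool.Agent.Run7.h888.AR.t_GROW Pool.Agent.Run7.h888.AR.t_RAY Pool.Agent.Run7.h114.AR.t_MAP
    Pool.Agent.Run7.h986.AR.t_SCHW Pool.Agent.Run7.h888.AR.t_CAU Run7.h771.AR.t_HEX
    Pool.Agent.Run7.h221.AR.t_HUN Run7.h771.AR.t_ATOM Pool.Agent.Run7.h595.AR.t_BA
    Pool.Agent.Run7.h114.AR.t_LIM Pool.Agent.Run7.h213.AR.t_LOG

end Pool.Agent.Results.MP_0d9f0f_an.ScalarCounterexample
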